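import Pool.Agent.Helper12.RQ.Goals

/-!
# Packet E12L (MP_a2585e_an): sharpness of (E1) and (E2)
-/

set_option autoImplicit false

open MeasureTheory Set Filter Topology Metric

open scoped ENNReal NNReal

namespace Pool.Agent.Helper33.RQ

open Pool.Agent.Helper12.RQ

theorem om_nonneg (n : ℕ) : 0 ≤ om n := by
  unfold om
  positivity

theorem core_eps (h1 : StmtSH) {n : ℕ} {p : ℝ} (hn : 2 ≤ n) (hp1 : (n : ℝ) - 1 < p)
    (hp2 : p < n) {α r R ε : ℝ} (hα : 1 < α) (hr : 0 < r) (hrR : r < R) (hε : 0 < ε)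
    {D : Set (E n)} (hD : D ⊆ ball 0 R) {C B : ℝ} (hC : 0 ≤ C) (hB : 0 < B)
    (H : ∀ (Q : E n → ℝ≥0∞) (f : E n → E n) (x : E n), Data p (ball 0 R) 0 Q f → ‖x‖ = r →
      ENNReal.ofReal ‖f x - f 0‖ ≤
        ENNReal.ofReal C * nrm α Q D ^ (1 / (n - p)) * ENNReal.ofReal B) :
    om n ^ (1 - 1 / α) * (∫ s in r..R, s ^ (-bexp n p α - 1)) ^ (-(p - 1 + 1 / α)) ≤
      (1 + ε) * (kap n p * (C * B) ^ (n - p)) := by
  obtain ⟨f, Q, x, hQ, hf, hx, hfin, hineq⟩ := h1 n p hn hp1 hp2 α r R ε hα hr hrR hε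
  have hR : 0 < R := hr.trans hrR
  have hdata : Data p (ball 0 R) 0 Q f :=
    ⟨isOpen_ball, ⟨⟨0, mem_ball_self hR⟩, (convex_ball _ _).isPreconnected⟩,
      mem_ball_self hR, hQ, hf⟩
  have HH := H Q f x hdata hx
  have hy : 0 < ‖f x - f 0‖ := by
    rw [norm_pos_iff, sub_ne_zero]
    intro heq
    have hxb : x ∈ ball (0 : E n) R := by
      rw [mem_ball_zero_iff, hx]
      exact hrR
    have := hf.embed.injective (a₁ := ⟨x, hxb⟩) (a₂ := ⟨0, mem_ball_self hR⟩) heq
    have h0 : x = 0 := congrArg Subtype.val this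
    rw [h0, norm_zero] at hx
    linarith
  generalize ‖f x - f 0‖ = y at *
  have hnp : 0 < (n : ℝ) - p := by linarith
  obtain ⟨q, hq⟩ : ∃ q : ℝ, q = (nrm α Q (ball 0 R)).toReal := ⟨_, rfl⟩
  have hq0 : 0 ≤ q := by rw [hq]; exact ENNReal.toReal_nonneg
  have hq' : nrm α Q (ball 0 R) = ENNReal.ofReal q := by
    rw [hq, ENNReal.ofReal_toReal hfin.ne]
  have hmono : nrm α Q D ≤ ENNReal.ofReal q := by
    rw [← hq']
    unfold nrm
    exact ENNReal.rpow_le_rpow (lintegral_mono_set hD) (by positivity)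
  have h2 : y ≤ C * q ^ (1 / ((n : ℝ) - p)) * B := by
    have h3 : ENNReal.ofReal y ≤ ENNReal.ofReal (C * q ^ (1 / ((n : ℝ) - p)) * B) := by
      refine HH.trans ?_
      rw [ENNReal.ofReal_mul (by positivity), ENNReal.ofReal_mul hC,
        ← ENNReal.ofReal_rpow_of_nonneg hq0 (by positivity)]
      gcongr
    exact (ENNReal.ofReal_le_ofReal_iff (by positivity)).mp h3
  have hqpos : 0 < q := by
    rcases hq0.lt_or_eq with h | h
    · exact h
    · exfalso
      rw [← h, Real.zero_rpow (by positivity)] at h2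
      linarith
  have h3 : y ^ ((n : ℝ) - p) ≤ (C * B) ^ ((n : ℝ) - p) * q := by
    have h4 := Real.rpow_le_rpow hy.le h2 hnp.le
    have h5 : (C * q ^ (1 / ((n : ℝ) - p)) * B) = (C * B) * q ^ (1 / ((n : ℝ) - p)) := by ring
    rw [h5, Real.mul_rpow (by positivity) (by positivity), ← Real.rpow_mul hq0,
      one_div_mul_cancel hnp.ne', Real.rpow_one] at h4
    exact h4
  rw [hq', ← ENNReal.ofReal_mul' hq0] at hineq
  have hkap : 0 ≤ kap n p := ENNReal.toReal_nonneg
  have h6 : om n ^ (1 - 1 / α) *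
      (∫ s in r..R, s ^ (-bexp n p α - 1)) ^ (-(p - 1 + 1 / α)) * q ≤
      (1 + ε) * kap n p * y ^ ((n : ℝ) - p) :=
    (ENNReal.ofReal_le_ofReal_iff (by positivity)).mp hineq
  have h7 : om n ^ (1 - 1 / α) *
      (∫ s in r..R, s ^ (-bexp n p α - 1)) ^ (-(p - 1 + 1 / α)) * q ≤
      ((1 + ε) * (kap n p * (C * B) ^ ((n : ℝ) - p))) * q := by
    refine h6.trans ?_
    have : (1 + ε) * (kap n p * (C * B) ^ ((n : ℝ) - p)) * q =
      (1 + ε) * kap n p * ((C * B) ^ ((n : ℝ) - p) * q) := by ring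
    rw [this]
    gcongr
  exact le_of_mul_le_mul_right h7 hqpos

theorem core (h1 : StmtSH) {n : ℕ} {p : ℝ} (hn : 2 ≤ n) (hp1 : (n : ℝ) - 1 < p)
    (hp2 : p < n) {α r R : ℝ} (hα : 1 < α) (hr : 0 < r) (hrR : r < R)
    {D : Set (E n)} (hD : D ⊆ ball 0 R) {C B : ℝ} (hC : 0 ≤ C) (hB : 0 < B)
    (H : ∀ (Q : E n → ℝ≥0∞) (f : E n → E n) (x : E n), Data p (ball 0 R) 0 Q f → ‖x‖ = r →
      ENNReal.ofReal ‖f x - f 0‖ ≤
        ENNReal.ofReal C * nrm α Q D ^ (1 / (n - p)) * ENNReal.ofReal B) :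
    om n ^ (1 - 1 / α) * (∫ s in r..R, s ^ (-bexp n p α - 1)) ^ (-(p - 1 + 1 / α)) ≤
      kap n p * (C * B) ^ (n - p) := by
  have ht : Tendsto (fun ε : ℝ => (1 + ε) * (kap n p * (C * B) ^ ((n : ℝ) - p))) (𝓝[>] 0)
      (𝓝 ((1 + 0) * (kap n p * (C * B) ^ ((n : ℝ) - p)))) := by
    refine Tendsto.mul_const _ (tendsto_nhdsWithin_of_tendsto_nhds ?_)
    exact (continuous_const.add continuous_id).tendsto 0
  have hle := ge_of_tendsto ht (b := om n ^ (1 - 1 / α) *
      (∫ s in r..R, s ^ (-bexp n p α - 1)) ^ (-(p - 1 + 1 / α))) (by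
    filter_upwards [self_mem_nhdsWithin] with ε hε
    exact core_eps h1 hn hp1 hp2 hα hr hrR hε hD hC hB H)
  rw [add_zero, one_mul] at hle
  exact hle

theorem le_bdist {n : ℕ} (R : ℝ) : ENNReal.ofReal R ≤ bdist (ball (0 : E n) R) 0 := by
  unfold bdist
  rw [Metric.le_infEDist]
  intro y hy
  rw [mem_compl_iff, mem_ball_zero_iff, not_lt] at hy
  rw [edist_comm, edist_zero_right, ← ofReal_norm]
  exact ENNReal.ofReal_le_ofReal hy

theorem e1l (h1 : StmtSH) (h2 : StmtPOS) : StmtE1L := by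
  intro n p hn hp1 hp2 D hD C hC hE
  obtain ⟨hk1, hk2⟩ := h2 n p hn hp1 hp2
  have hkap : 0 < kap n p := ENNReal.toReal_pos hk1.ne' hk2.ne
  have hn' : (2 : ℝ) ≤ n := by exact_mod_cast hn
  have hnp : 0 < (n : ℝ) - p := by linarith
  have hp0 : 0 < p := by linarith
  set α : ℝ := n / (n - p) with hα
  have hα1 : 1 < α := by
    rw [hα, one_lt_div hnp]
    linarith
  have hb : bexp n p α = 0 := by
    unfold bexp
    rw [hα, div_mul_cancel₀ _ hnp.ne', sub_self, zero_div]
  have e1 : 1 / α = 1 - p / n := by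
    rw [hα, one_div_div, sub_div, div_self (by linarith : (n : ℝ) ≠ 0)]
  set m : ℝ := p * (n - 1) / n with hm
  have e2 : p - 1 + 1 / α = m := by
    rw [e1, hm]
    field_simp
    ring
  have e3 : 1 - 1 / α = p / n := by rw [e1]; ring
  set e : ℝ := p * (n - 1) / (n * (n - p)) with he
  have hme : e * (n - p) = m := by
    rw [he, hm]
    field_simp
  -- the inequality for `r < 1/16`
  have key : ∀ r : ℝ, 0 < r → r < 1 / 16 →
      om n ^ (p / n) * (Real.log ((1 / 2) / r)) ^ (-m) ≤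
        kap n p * (C * Real.log (1 / r) ^ (-e)) ^ ((n : ℝ) - p) := by
    intro r hr hr2
    have hL : 0 < Real.log (1 / r) := by
      apply Real.log_pos
      rw [lt_div_iff₀ hr]
      linarith
    have := core h1 hn hp1 hp2 (α := α) (r := r) (R := 1 / 2) hα1 hr (by linarith)
      (D := D (ball 0 (1 / 2)) 0) (hD _ _) hC (B := Real.log (1 / r) ^ (-e))
      (Real.rpow_pos_of_pos hL _) (by
        intro Q f x hdata hx
        have hx0 : x ≠ 0 := by
          intro h
          rw [h, norm_zero] at hx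
          linarith
        have hlt : edist x 0 < min 1 (bdist (ball (0 : E n) (1 / 2)) 0 ^ 4) := by
          rw [edist_zero_right, ← ofReal_norm, hx, lt_min_iff]
          constructor
          · rw [← ENNReal.ofReal_one]
            exact (ENNReal.ofReal_lt_ofReal_iff one_pos).mpr (by linarith)
          · refine lt_of_lt_of_le ?_ (pow_le_pow_left' (le_bdist (1 / 2)) 4)
            rw [← ENNReal.ofReal_pow (by norm_num)]
            refine (ENNReal.ofReal_lt_ofReal_iff (by norm_num)).mpr ?_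
            norm_num
            linarith
        have := hE (ball 0 (1 / 2)) 0 Q f hdata x hx0 hlt
        rw [sub_zero, hx] at this
        exact this)
    rw [hb, e2, e3] at this
    have hint : (∫ s in r..(1 / 2), s ^ (-(0 : ℝ) - 1)) = Real.log ((1 / 2) / r) := by
      have : ∀ s : ℝ, s ^ (-(0 : ℝ) - 1) = s⁻¹ := by
        intro s
        rw [neg_zero, zero_sub, Real.rpow_neg_one]
      simp only [this]
      exact integral_inv_of_pos hr (by norm_num)
    rw [hint] at this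
    exact this
  -- the limit
  have h16a : Real.log ((1 / 2 : ℝ) / (1 / 16)) = 3 * Real.log 2 := by
    rw [show ((1 / 2 : ℝ) / (1 / 16)) = 2 ^ 3 by norm_num, Real.log_pow]
    norm_num
  have h16b : Real.log ((1 : ℝ) / (1 / 16)) = 4 * Real.log 2 := by
    rw [show ((1 : ℝ) / (1 / 16)) = 2 ^ 4 by norm_num, Real.log_pow]
    norm_num
  have hl2 : 0 < Real.log 2 := Real.log_pos (by norm_num)
  have ht1 : Tendsto (fun r : ℝ => om n ^ (p / n) * (Real.log ((1 / 2) / r)) ^ (-m))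
      (𝓝[<] (1 / 16)) (𝓝 (om n ^ (p / n) * (Real.log ((1 / 2) / (1 / 16))) ^ (-m))) := by
    refine tendsto_nhdsWithin_of_tendsto_nhds ?_
    refine Tendsto.const_mul _ ?_
    refine Tendsto.rpow_const ?_ (Or.inl (by rw [h16a]; positivity))
    refine Tendsto.log ?_ (by norm_num)
    exact tendsto_const_nhds.div tendsto_id (by norm_num)
  have ht2 : Tendsto (fun r : ℝ => kap n p * (C * Real.log (1 / r) ^ (-e)) ^ ((n : ℝ) - p))
      (𝓝[<] (1 / 16)) (𝓝 (kap n p * (C * Real.log (1 / (1 / 16)) ^ (-e)) ^ ((n : ℝ) - p))) := by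
    refine tendsto_nhdsWithin_of_tendsto_nhds ?_
    refine Tendsto.const_mul _ ?_
    refine Tendsto.rpow_const ?_ (Or.inr hnp.le)
    refine Tendsto.const_mul _ ?_
    refine Tendsto.rpow_const ?_ (Or.inl (by rw [h16b]; positivity))
    refine Tendsto.log ?_ (by norm_num)
    exact tendsto_const_nhds.div tendsto_id (by norm_num)
  have hlim := le_of_tendsto_of_tendsto ht1 ht2 (by
    have : Ioo (0 : ℝ) (1 / 16) ∈ 𝓝[<] (1 / 16 : ℝ) := Ioo_mem_nhdsLT (by norm_num)
    filter_upwards [this] with r hr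
    exact key r hr.1 hr.2)
  rw [h16a, h16b] at hlim
  have hom : 0 ≤ om n := om_nonneg n
  have hlim2 : om n ^ (p / n) / kap n p * (3 * Real.log 2) ^ (-m) ≤
      (C * (4 * Real.log 2) ^ (-e)) ^ ((n : ℝ) - p) := by
    rw [div_mul_eq_mul_div, div_le_iff₀ hkap, mul_comm _ (kap n p)]
    exact hlim
  have h4e : 0 < (4 * Real.log 2) ^ (-e) := by positivity
  have hA : 0 ≤ om n ^ (p / n) / kap n p := by positivity
  have hlim3 := Real.rpow_le_rpow (by positivity) hlim2
    (by positivity : 0 ≤ 1 / ((n : ℝ) - p))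
  rw [← Real.rpow_mul (by positivity), mul_one_div_cancel hnp.ne', Real.rpow_one,
    Real.mul_rpow hA (by positivity), ← Real.rpow_mul (by positivity)] at hlim3
  have e4 : -m * (1 / ((n : ℝ) - p)) = -e := by
    rw [← hme]
    field_simp
  rw [e4] at hlim3
  unfold C1
  rw [← he]
  have e5 : (4 / 3 : ℝ) ^ e = (3 * Real.log 2) ^ (-e) / (4 * Real.log 2) ^ (-e) := by
    rw [← Real.div_rpow (by positivity) (by positivity), Real.rpow_neg (by positivity),
      ← Real.inv_rpow (by positivity)]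
    congr 1
    field_simp
  rw [e5, div_mul_eq_mul_div, div_le_iff₀ h4e]
  calc _ = (om n ^ (p / n) / kap n p) ^ (1 / ((n : ℝ) - p)) * (3 * Real.log 2) ^ (-e) := by ring
    _ ≤ _ := hlim3

theorem e2l (h1 : StmtSH) (h2 : StmtPOS) : StmtE2L := by
  intro n p hn hp1 hp2 D hD C hC hE
  obtain ⟨hk1, hk2⟩ := h2 n p hn hp1 hp2
  have hkap : 0 < kap n p := ENNReal.toReal_pos hk1.ne' hk2.ne
  have hn' : (2 : ℝ) ≤ n := by exact_mod_cast hn
  have hnp : 0 < (n : ℝ) - p := by linarith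
  have hp0 : 0 < p := by linarith
  unfold C2
  have : Nonempty {α : ℝ // (n : ℝ) / (n - p) < α} := ⟨⟨n / (n - p) + 1, by linarith⟩⟩
  refine ciSup_le ?_
  rintro ⟨α, hα⟩
  change C2a n p α ≤ C
  have hα1 : 1 < α := by
    refine lt_trans ?_ hα
    rw [one_lt_div hnp]
    linarith
  have hα0 : 0 < α := by linarith
  have hαn : (n : ℝ) < α * (n - p) := by
    rwa [div_lt_iff₀ hnp] at hα
  set b : ℝ := bexp n p α with hb
  have hden : 0 < α * (p - 1) + 1 := by
    have : 0 < p - 1 := by linarith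
    positivity
  have hb0 : 0 < b := by
    rw [hb]
    unfold bexp
    apply div_pos _ hden
    linarith
  set k : ℝ := p - 1 + 1 / α with hk
  have hkk : 0 < k := by
    have : 0 < p - 1 := by linarith
    positivity
  have hbk : b * k = (1 - n / (α * (n - p))) * (n - p) := by
    rw [hb, hk]
    unfold bexp
    field_simp
  have key : ∀ r : ℝ, 0 < r → r < 1 / 4 →
      om n ^ (1 - 1 / α) * ((r ^ (-b) - 1) / b) ^ (-k) ≤
        kap n p * (C * r ^ (1 - n / (α * (n - p)))) ^ ((n : ℝ) - p) := by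
    intro r hr hr2
    have := core h1 hn hp1 hp2 (α := α) (r := r) (R := 1) hα1 hr (by linarith)
      (D := D (ball 0 1) 0) (hD _ _) hC (B := r ^ (1 - n / (α * (n - p))))
      (Real.rpow_pos_of_pos hr _) (by
        intro Q f x hdata hx
        have hx0 : x ≠ 0 := by
          intro h
          rw [h, norm_zero] at hx
          linarith
        have hlt : edist x 0 < bdist (ball (0 : E n) 1) 0 / 4 := by
          rw [edist_zero_right, ← ofReal_norm, hx]
          refine lt_of_lt_of_le ?_ (ENNReal.div_le_div_right (le_bdist 1) 4)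
          rw [show (4 : ℝ≥0∞) = ENNReal.ofReal 4 by simp,
            ← ENNReal.ofReal_div_of_pos (by norm_num)]
          exact (ENNReal.ofReal_lt_ofReal_iff (by norm_num)).mpr hr2
        have := hE (ball 0 1) 0 Q f hdata α hα x hx0 hlt
        rw [sub_zero, hx] at this
        exact this)
    rw [← hb, ← hk] at this
    have hint : (∫ s in r..1, s ^ (-b - 1)) = (r ^ (-b) - 1) / b := by
      rw [integral_rpow]
      · rw [sub_add_cancel, Real.one_rpow, ← neg_div_neg_eq]
        congr 1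
        · ring
        · ring
      · right
        refine ⟨by linarith, ?_⟩
        rw [uIcc_of_le (by linarith)]
        intro h
        linarith [h.1]
    rw [hint] at this
    exact this
  have h4b : 1 < (4 : ℝ) ^ b := Real.one_lt_rpow (by norm_num) hb0
  have h4b' : (1 / 4 : ℝ) ^ (-b) = 4 ^ b := by
    rw [one_div, Real.inv_rpow (by norm_num), Real.rpow_neg (by norm_num), inv_inv]
  have ht1 : Tendsto (fun r : ℝ => om n ^ (1 - 1 / α) * ((r ^ (-b) - 1) / b) ^ (-k))
      (𝓝[<] (1 / 4)) (𝓝 (om n ^ (1 - 1 / α) * (((1 / 4) ^ (-b) - 1) / b) ^ (-k))) := by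
    refine tendsto_nhdsWithin_of_tendsto_nhds ?_
    refine Tendsto.const_mul _ ?_
    refine Tendsto.rpow_const ?_ (Or.inl ?_)
    · refine Tendsto.div_const (Tendsto.sub_const ?_ _) _
      exact Tendsto.rpow_const tendsto_id (Or.inl (by norm_num))
    · rw [h4b']
      have : 0 < ((4 : ℝ) ^ b - 1) / b := div_pos (by linarith) hb0
      exact this.ne'
  have ht2 : Tendsto (fun r : ℝ => kap n p * (C * r ^ (1 - n / (α * (n - p)))) ^ ((n : ℝ) - p))
      (𝓝[<] (1 / 4))
      (𝓝 (kap n p * (C * (1 / 4) ^ (1 - n / (α * (n - p)))) ^ ((n : ℝ) - p))) := by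
    refine tendsto_nhdsWithin_of_tendsto_nhds ?_
    refine Tendsto.const_mul _ ?_
    refine Tendsto.rpow_const ?_ (Or.inr hnp.le)
    refine Tendsto.const_mul _ ?_
    exact Tendsto.rpow_const tendsto_id (Or.inl (by norm_num))
  have hlim := le_of_tendsto_of_tendsto ht1 ht2 (by
    have : Ioo (0 : ℝ) (1 / 4) ∈ 𝓝[<] (1 / 4 : ℝ) := Ioo_mem_nhdsLT (by norm_num)
    filter_upwards [this] with r hr
    exact key r hr.1 hr.2)
  rw [h4b'] at hlim
  have hom : 0 ≤ om n := om_nonneg n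
  have hpos1 : 0 < ((4 : ℝ) ^ b - 1) / b := div_pos (by linarith) hb0
  have e6 : (C * (1 / 4 : ℝ) ^ (1 - n / (α * (n - p)))) ^ ((n : ℝ) - p) =
      C ^ ((n : ℝ) - p) * ((4 : ℝ) ^ b) ^ (-k) := by
    rw [Real.mul_rpow hC (by positivity), ← Real.rpow_mul (by norm_num), ← hbk, ← Real.rpow_mul
      (by norm_num), one_div, Real.inv_rpow (by norm_num), ← Real.rpow_neg (by norm_num)]
    congr 2
    ring
  rw [e6] at hlim
  have h4k : 0 < ((4 : ℝ) ^ b) ^ (-k) := by positivity
  have e7 : (b / (1 - 4 ^ (-b))) ^ k =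
      (((4 : ℝ) ^ b - 1) / b) ^ (-k) / ((4 : ℝ) ^ b) ^ (-k) := by
    have h9 : (4 : ℝ) ^ b - 1 ≠ 0 := by linarith
    have h10 : (4 : ℝ) ^ b ≠ 0 := by linarith
    have h11 : b / (1 - 4 ^ (-b)) = (((4 : ℝ) ^ b - 1) / b / 4 ^ b)⁻¹ := by
      rw [Real.rpow_neg (by norm_num)]
      have h12 : 1 - ((4 : ℝ) ^ b)⁻¹ ≠ 0 := by
        have : ((4 : ℝ) ^ b)⁻¹ < 1 := inv_lt_one_of_one_lt₀ h4b
        linarith
      field_simp
    rw [h11, Real.inv_rpow (by positivity), ← Real.rpow_neg (by positivity),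
      Real.div_rpow (by positivity) (by positivity)]
  have hfin : om n ^ (1 - 1 / α) / kap n p * (b / (1 - 4 ^ (-b))) ^ k ≤ C ^ ((n : ℝ) - p) := by
    rw [e7, div_mul_div_comm, div_le_iff₀ (by positivity)]
    calc _ ≤ _ := hlim
      _ = _ := by ring
  unfold C2a
  rw [← hb, ← hk]
  have h1m : 0 ≤ om n ^ (1 - 1 / α) / kap n p * (b / (1 - 4 ^ (-b))) ^ k := by
    have : (4 : ℝ) ^ (-b) < 1 := Real.rpow_lt_one_of_one_lt_of_neg (by norm_num) (by linarith)
    have h3 : 0 < 1 - (4 : ℝ) ^ (-b) := by linarith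
    positivity
  have := Real.rpow_le_rpow h1m hfin (by positivity : 0 ≤ 1 / ((n : ℝ) - p))
  rw [← Real.rpow_mul hC, mul_one_div_cancel hnp.ne', Real.rpow_one] at this
  exact this

end Pool.Agent.Helper33.RQ
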